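import Pool.Agent.Lib.MP_1a91b9_ntM.R.Den
import Pool.Agent.Lib.MP_1a91b9_ntM.DJ.Gd

/-!
# MQ, part R, file Dsj: the joint density (`DSJ`) is proved
-/

set_option autoImplicit false

namespace Pool.Agent.Lib.MP_1a91b9_ntM

open Finset Pool.Agent.Lib.MP_1a91b9_ntQ

/-- **The joint density of the good sets of primes.** -/
theorem dsj : DSJ := by
  intro N hN kk jk T B hT hinj m g κ₀ hκ
  haveI : Nonempty (Fin N) := ⟨⟨0, hN⟩⟩
  exact gdJ hT kk jk (fun a b h1 h2 h3 => hinj (by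
    show (md (kk a), jk a, T a) = (md (kk b), jk b, T b)
    rw [h1, h2, h3])) g (by rw [Fintype.card_fin]; exact hκ)

end Pool.Agent.Lib.MP_1a91b9_ntM
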