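import Pool.Agent.Lib.MP_1a91b9_ntQ.D.Gd5

/-!
# MQ, part R, file Sqf: the squarefree part of a product
-/

set_option autoImplicit false

namespace Pool.Agent.Lib.MP_1a91b9_ntM

open NumberField Finset Pool.Agent.Lib.MP_1a91b9_ntQ
open Den4 (ph)

noncomputable section

/-- The squarefree part of an element. -/
theorem exists_sf (a : 𝓞 K4) : a ≠ 0 →
    ∃ (k : ZMod 4) (j : Fin 2) (T : Finset Pg) (s : 𝓞 K4), s ≠ 0 ∧
      a = ph k j (DDq T) * s ^ 2 := by
  suffices h : a ≠ 0 → ∃ δ s : 𝓞 K4, Squarefree δ ∧ s ≠ 0 ∧ a = δ * s ^ 2 by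
    intro ha
    obtain ⟨δ, s, h1, h2, h3⟩ := h ha
    obtain ⟨k, j, T, h4⟩ := exists_sqf h1
    exact ⟨k, j, T, s, h2, by rw [h3, h4]; rfl⟩
  refine UniqueFactorizationMonoid.induction_on_prime a (fun h => absurd rfl h)
    (fun x hx _ => ⟨x, 1, hx.squarefree, one_ne_zero, by ring⟩) ?_
  intro b p hb hp ih hpb
  obtain ⟨δ, s, h1, h2, h3⟩ := ih hb
  by_cases h : p ∣ δ
  · obtain ⟨δ', rfl⟩ := h
    refine ⟨δ', p * s, h1.squarefree_of_dvd (Dvd.intro_left p rfl), mul_ne_zero hp.ne_zero h2, ?_⟩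
    rw [h3]
    ring
  · refine ⟨p * δ, s, ?_, h2, ?_⟩
    · rw [squarefree_mul_iff]
      exact ⟨(hp.irreducible.isRelPrime_iff_not_dvd).2 h, hp.squarefree, h1⟩
    · rw [h3]
      ring

theorem fin2_cases : ∀ j : Fin 2, j = 0 ∨ j = 1 := by decide

theorem lam_pow_add (j j' : Fin 2) : ∃ t : 𝓞 K4, t ≠ 0 ∧
    lam ^ j.val * lam ^ j'.val = lam ^ (j + j').val * t ^ 2 := by
  rcases fin2_cases j with rfl | rfl <;> rcases fin2_cases j' with rfl | rfl
  · exact ⟨1, one_ne_zero, by simp⟩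
  · exact ⟨1, one_ne_zero, by simp⟩
  · exact ⟨1, one_ne_zero, by simp⟩
  · refine ⟨lam, lam_ne_zero, ?_⟩
    have e : ((1 : Fin 2) + 1).val = 0 := rfl
    have e1 : (1 : Fin 2).val = 1 := rfl
    rw [e, e1]
    ring

theorem DDq_mul (S T : Finset Pg) : DDq S * DDq T = DDq (symmDiff S T) * DDq (S ∩ T) ^ 2 := by
  have h1 : DDq S = DDq (S \ T) * DDq (S ∩ T) := by
    rw [← DDq_union (disjoint_sdiff_inter S T), sdiff_union_inter]
  have h2 : DDq T = DDq (T \ S) * DDq (S ∩ T) := by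
    rw [inter_comm, ← DDq_union (disjoint_sdiff_inter T S), sdiff_union_inter]
  have h3 : DDq (symmDiff S T) = DDq (S \ T) * DDq (T \ S) := by
    rw [← DDq_union (disjoint_sdiff_sdiff), symmDiff_def]
    rfl
  rw [h1, h2, h3]
  ring

/-- The squarefree part of a product. -/
theorem ph_mul (k k' : ZMod 4) (j j' : Fin 2) (S T : Finset Pg) : ∃ t : 𝓞 K4, t ≠ 0 ∧
    ph k j (DDq S) * ph k' j' (DDq T) = ph (k + k') (j + j') (DDq (symmDiff S T)) * t ^ 2 := by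
  obtain ⟨t, h1, h2⟩ := lam_pow_add j j'
  refine ⟨t * DDq (S ∩ T), mul_ne_zero h1 (DDq_in4 _).ne_zero, ?_⟩
  unfold Den4.ph
  have h3 := pow_val_mul k k'
  have h4 := DDq_mul S T
  calc iO ^ k.val * lam ^ j.val * DDq S * (iO ^ k'.val * lam ^ j'.val * DDq T)
      = (iO ^ k.val * iO ^ k'.val) * (lam ^ j.val * lam ^ j'.val) * (DDq S * DDq T) := by ring
    _ = _ := by
      rw [h3, h2, h4]
      ring

/-- `i ^ k` is a square if `k` is even. -/
theorem sq_iO {k : ZMod 4} (h : md k = 0) : ∃ y : 𝓞 K4, y ^ 2 = iO ^ k.val := by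
  have h1 : ∀ k : ZMod 4, md k = 0 → k = 0 ∨ k = 2 := by decide
  rcases h1 k h with rfl | rfl
  · exact ⟨1, by rw [ZMod.val_zero]; ring⟩
  · exact ⟨iO, rfl⟩

/-- Two elements with the same data differ by a square. -/
theorem sq_of_eq {k k' : ZMod 4} {j : Fin 2} {T : Finset Pg} (h : md k = md k') :
    ∃ y : 𝓞 K4, y ^ 2 = ph k j (DDq T) * ph k' j (DDq T) := by
  have h1 : md (k + k') = 0 := by
    rw [map_add, h]
    have : ∀ x : ZMod 2, x + x = 0 := by decide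
    exact this _
  obtain ⟨y, hy⟩ := sq_iO h1
  refine ⟨y * (lam ^ j.val * DDq T), ?_⟩
  unfold Den4.ph
  rw [mul_pow, hy, ← pow_val_mul]
  ring

theorem symm_union {B S B' T : Finset Pg} (hT : T ⊆ B) (hB : B' ⊆ B) (hS : Disjoint S B) :
    symmDiff (B' ∪ S) T = S ∪ symmDiff B' T := by
  ext q
  simp only [mem_symmDiff, mem_union]
  have h1 : q ∈ S → q ∉ B := fun h => disjoint_left.1 hS h
  have h2 : q ∈ T → q ∈ B := fun h => hT h
  have h3 : q ∈ B' → q ∈ B := fun h => hB h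
  tauto

end

end Pool.Agent.Lib.MP_1a91b9_ntM
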