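import Pool.Agent.Lib.MP_1a91b9_ntM.R.Tr
import Pool.Agent.Lib.MP_1a91b9_ntM.R.Sqf
import Pool.Agent.Lib.MP_1a91b9_ntQ.Q.Main5

/-!
# MQ, part R, file Den: the density of the squarefree `d` for which all the twists `a d` are good
-/

set_option autoImplicit false

namespace Pool.Agent.Lib.MP_1a91b9_ntM

open NumberField Finset Pool.Agent.Lib.MP_1a91b9_ntQ
open Den4 (ph)

noncomputable section

/-- The joint density of the good sets of primes (part D). -/
def DSJ : Prop := ∀ (N : ℕ), 0 < N → ∀ (kk : Fin N → ZMod 4) (jk : Fin N → Fin 2)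
  (T : Fin N → Finset Pg) (B : Finset Pg), (∀ i, T i ⊆ B) →
  Function.Injective (fun i => (md (kk i), jk i, T i)) → ∀ (m : ℕ) (g : GB m B) (κ₀ : ℝ),
  κ₀ < Da.cinf2 ^ N → DSB m B g κ₀ fun S => ∀ i, Gd5 (kk i) (jk i) (S ∪ T i)

theorem fin2_add_cancel {j a b : Fin 2} (h : j + a = j + b) : a = b := by
  revert j a b
  decide

theorem symmDiff_cancel {S A B : Finset Pg} (h : symmDiff S A = symmDiff S B) : A = B := by
  have h1 := congrArg (fun X => symmDiff S X) h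
  simpa only [symmDiff_symmDiff_cancel_left] using h1

/-- **The density of the squarefree `d` for which all the twists by the elements of `A` are good.** -/
theorem den_all (hJ : DSJ) {A : List (𝓞 K4)} (hA : A ≠ []) (hne : ∀ a ∈ A, a ≠ 0)
    (hpw : A.Pairwise fun a b : 𝓞 K4 => ¬ ∃ y : K4, y ^ 2 = (a : K4) * b)
    {n : ℕ} {M u : 𝓞 K4} (hM : M ∣ 2 ^ n) (hu : ¬ ((2 : 𝓞 K4) ∣ M ∧ (2 : 𝓞 K4) ∣ u))
    (Pr : 𝓞 K4 → Prop)
    (hPr : ∀ d : 𝓞 K4, Squarefree d → (∀ a ∈ A, ∃ (k : ZMod 4) (j : Fin 2) (S : Finset Pg)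
      (t : 𝓞 K4), t ≠ 0 ∧ a * d = ph k j (DDq S) * t ^ 2 ∧ Gd5 k j S) → Pr d)
    (ε : ℝ) (hε : 0 < ε) :
    ∀ᶠ X : ℝ in Filter.atTop,
      (∏' i : ℕ, (1 + 1 / (2 : ℝ) ^ (i + 1))⁻¹) ^ A.length - ε ≤
      (Nat.card {x : 𝓞 K4 // Squarefree x ∧ M ∣ x - u ∧ |Algebra.norm ℤ x| ≤ X ∧ Pr x} : ℝ) /
        (Nat.card {x : 𝓞 K4 // Squarefree x ∧ M ∣ x - u ∧ |Algebra.norm ℤ x| ≤ X} : ℝ) := by
  obtain ⟨N, hN⟩ : ∃ N, N = A.length := ⟨_, rfl⟩
  have hN0 : 0 < N := by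
    rw [hN]
    exact List.length_pos_iff.2 hA
  obtain ⟨a, ha⟩ : ∃ a : Fin N → 𝓞 K4, (∀ x, x ∈ A ↔ ∃ i, a i = x) ∧
      ∀ i i', i ≠ i' → ¬ ∃ y : K4, y ^ 2 = (a i : K4) * a i' := by
    subst hN
    refine ⟨A.get, fun x => ?_, fun i i' hii => ?_⟩
    · rw [List.mem_iff_get]
    · have h1 := List.pairwise_iff_get.1 hpw
      rcases lt_or_gt_of_ne hii with h2 | h2
      · exact h1 i i' h2
      · rintro ⟨y, hy⟩
        exact h1 i' i h2 ⟨y, by rw [hy, mul_comm]⟩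
  obtain ⟨hmem, hdis⟩ := ha
  have h1 : ∀ i, ∃ (k : ZMod 4) (j : Fin 2) (T : Finset Pg) (s : 𝓞 K4), s ≠ 0 ∧
      a i = ph k j (DDq T) * s ^ 2 := fun i => exists_sf (a i) (hne _ ((hmem _).2 ⟨i, rfl⟩))
  choose kk jk T s hs hT using h1
  obtain ⟨B, hB⟩ : ∃ B : Finset Pg, B = univ.biUnion T := ⟨_, rfl⟩
  have hTB : ∀ i, T i ⊆ B := fun i => by
    rw [hB]
    exact subset_biUnion_of_mem T (mem_univ i)
  have hinj : ∀ i i', md (kk i) = md (kk i') → jk i = jk i' → T i = T i' → i = i' := by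
    intro i i' e1 e2 e3
    by_contra hii
    apply hdis i i' hii
    obtain ⟨y, hy⟩ := sq_of_eq (j := jk i) (T := T i) e1
    refine ⟨((y * (s i * s i') : 𝓞 K4) : K4), ?_⟩
    have h2 : (y * (s i * s i')) ^ 2 = a i * a i' := by
      rw [hT i, hT i', ← e2, ← e3, mul_pow, hy]
      ring
    exact_mod_cast congrArg (fun z : 𝓞 K4 => (z : K4)) h2
  obtain ⟨u', hu', hMu⟩ := Q5.exists_rep hu
  have hc0 : (0 : ℝ) < ε / 2 := by linarith
  rw [cinf2_form, ← hN]
  have key := density4_cls (2 * n) (hM.trans (Q5.two_pow_dvd n)) hu' (Da.cinf2 ^ N - ε / 2)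
    (Da.cinf2 ^ N - ε) (by linarith)
    (fun k j S => ∀ i, Gd5 (k + kk i) (j + jk i) (symmDiff S (T i)))
    (fun k j g _ => DS_of_DSB B g fun B' hB' g' =>
      (hJ N hN0 (fun i => k + kk i) (fun i => j + jk i) (fun i => symmDiff B' (T i)) B
        (fun i => by
          intro q hq
          rw [mem_symmDiff] at hq
          rcases hq with hq | hq
          · exact hB' hq.1
          · exact hTB i hq.1)
        (fun i i' h => by
          simp only [Prod.mk.injEq, map_add] at h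
          exact hinj i i' (add_left_cancel h.1) (fin2_add_cancel h.2.1) (symmDiff_cancel h.2.2))
        (2 * n) g' _ (by linarith)).mono fun S hS _ h2 i => by
          have e := symm_union (hTB i) hB' hS
          show Gd5 (k + kk i) (j + jk i) (symmDiff (B' ∪ S) (T i))
          rw [e]
          exact h2 i)
    Pr (fun k j S _ h2 => hPr _ (Den4.ph_squarefree k j S) fun b hb => by
      obtain ⟨i, rfl⟩ := (hmem b).1 hb
      obtain ⟨t, h3, h4⟩ := ph_mul k (kk i) j (jk i) S (T i)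
      refine ⟨k + kk i, j + jk i, symmDiff S (T i), t * s i, mul_ne_zero h3 (hs i), ?_, h2 i⟩
      rw [hT i]
      linear_combination (s i) ^ 2 * h4)
  simp only [Q5.dvd_sub_iff hMu] at key
  exact key

end

end Pool.Agent.Lib.MP_1a91b9_ntM
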