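import Pool.Agent.Lib.MP_1a91b9_ntQ.B.ClsB

/-!
# MQ, part R, file Tr: from the sets of primes outside `B` to all the sets of primes
-/

set_option autoImplicit false

namespace Pool.Agent.Lib.MP_1a91b9_ntM

open NumberField Finset Pool.Agent.Lib.MP_1a91b9_ntQ
open Pool.Agent.Lib.MP_1a91b9_ntH (PS nm Sx mem_Sx nm_union one_le_nm)

noncomputable section

/-- the parts in `B` and the classes of the parts outside `B` -/
def IB (m : ℕ) (B : Finset Pg) (g : G4n m) : Finset (Finset Pg × GB m B) := by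
  classical
  exact (B.powerset ×ˢ (univ : Finset (GB m B))).filter
    (fun i : Finset Pg × GB m B => (∑ q ∈ i.1, clq m q : G4n m) + i.2.1 = g)

theorem mem_IB {m : ℕ} {B : Finset Pg} {g : G4n m} {i : Finset Pg × GB m B} :
    i ∈ IB m B g ↔ i.1 ⊆ B ∧ (∑ q ∈ i.1, clq m q : G4n m) + i.2.1 = g := by
  classical
  rw [IB, mem_filter, mem_product, mem_powerset]
  constructor
  · rintro ⟨⟨h1, _⟩, h2⟩
    exact ⟨h1, h2⟩
  · rintro ⟨h1, h2⟩
    exact ⟨⟨h1, mem_univ _⟩, h2⟩

theorem fst_clB (m : ℕ) (B S : Finset Pg) : (∑ q ∈ S, clB m B q).1 = ∑ q ∈ S, clq m q := by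
  rw [Prod.fst_sum]
  rfl

open Classical in
theorem cnt_eq (m : ℕ) (B : Finset Pg) (g : G4n m) (Q : Finset Pg → Prop) (X : ℕ) :
    ((Sx Pg X).filter fun S => ∑ q ∈ S, clq m q = g ∧ Q S).card =
      ∑ i ∈ IB m B g, ((Sx Pg (X / nm i.1)).filter fun S =>
        Disjoint S B ∧ ∑ q ∈ S, clB m B q = i.2 ∧ Q (i.1 ∪ S)).card := by
  rw [card_eq_sum_card_fiberwise (f := fun S : Finset Pg => (S ∩ B, ∑ q ∈ S \ B, clB m B q))
    (t := IB m B g) (fun S hS => ?_)]
  · refine sum_congr rfl fun i hi => ?_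
    obtain ⟨hi1, hi2⟩ := mem_IB.1 hi
    have hpos : 0 < nm i.1 := one_le_nm i.1
    refine card_bij' (fun S _ => S \ B) (fun T _ => i.1 ∪ T) ?_ ?_ ?_ ?_
    · intro S hS
      simp only [mem_filter, mem_Sx] at hS ⊢
      obtain ⟨⟨h1, h2, h3⟩, h4⟩ := hS
      have h5 : S ∩ B = i.1 := congrArg Prod.fst h4
      have h6 : ∑ q ∈ S \ B, clB m B q = i.2 := congrArg Prod.snd h4
      have h7 : i.1 ∪ S \ B = S := by
        rw [← h5, union_comm, sdiff_union_inter]
      have h8 : Disjoint i.1 (S \ B) := disjoint_of_subset_left hi1 disjoint_sdiff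
      refine ⟨?_, sdiff_disjoint, h6, ?_⟩
      · rw [Nat.le_div_iff_mul_le hpos, mul_comm, ← nm_union h8, h7]
        exact h1
      · rw [h7]
        exact h3
    · intro T hT
      simp only [mem_filter, mem_Sx] at hT ⊢
      obtain ⟨h1, h2, h3, h4⟩ := hT
      have h8 : Disjoint i.1 T := disjoint_of_subset_left hi1 h2.symm
      have e1 : (i.1 ∪ T) ∩ B = i.1 := by
        rw [union_inter_distrib_right, inter_eq_left.2 hi1, disjoint_iff_inter_eq_empty.1 h2,
          union_empty]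
      have e2 : (i.1 ∪ T) \ B = T := by
        rw [union_sdiff_distrib, sdiff_eq_empty_iff_subset.2 hi1, empty_union,
          sdiff_eq_self_of_disjoint h2]
      refine ⟨⟨?_, ?_, h4⟩, ?_⟩
      · rw [Nat.le_div_iff_mul_le hpos, mul_comm, ← nm_union h8] at h1
        exact h1
      · rw [sum_union h8, ← fst_clB m B T, h3]
        exact hi2
      · rw [e1, e2, h3]
    · intro S hS
      simp only [mem_filter, mem_Sx] at hS
      have h5 : S ∩ B = i.1 := congrArg Prod.fst hS.2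
      show i.1 ∪ S \ B = S
      rw [← h5, union_comm, sdiff_union_inter]
    · intro T hT
      simp only [mem_filter, mem_Sx] at hT
      show (i.1 ∪ T) \ B = T
      rw [union_sdiff_distrib, sdiff_eq_empty_iff_subset.2 hi1, empty_union,
        sdiff_eq_self_of_disjoint hT.2.1]
  · rw [mem_coe, mem_filter] at hS
    rw [mem_coe, mem_IB]
    refine ⟨inter_subset_right, ?_⟩
    show ∑ q ∈ S ∩ B, clq m q + (∑ q ∈ S \ B, clB m B q).1 = g
    rw [fst_clB, ← hS.2.1, ← sum_union (disjoint_of_subset_left inter_subset_right disjoint_sdiff),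
      union_comm, sdiff_union_inter]

/-- **From the sets of primes outside `B` to all the sets of primes.** -/
theorem DS_of_DSB {m : ℕ} (B : Finset Pg) (g : G4n m) {κ₀ : ℝ} {Q : Finset Pg → Prop}
    (h : ∀ B' : Finset Pg, B' ⊆ B → ∀ g' : GB m B, DSB m B g' κ₀ fun S => Q (B' ∪ S)) :
    DS m g κ₀ Q := by
  classical
  intro ε hε
  obtain ⟨n, hn⟩ : ∃ n : ℝ, n = ((IB m B g).card : ℝ) + 1 := ⟨_, rfl⟩
  have hn0 : 0 < n := by
    rw [hn]
    positivity
  have h' : ∀ i : Finset Pg × GB m B, ∃ X₀ : ℕ, i ∈ IB m B g → ∀ X : ℕ, X₀ ≤ X →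
      κ₀ * (((Sx Pg X).filter fun S => Disjoint S B ∧ ∑ q ∈ S, clB m B q = i.2).card : ℝ) -
        ε / n * X ≤ (((Sx Pg X).filter fun S => Disjoint S B ∧ ∑ q ∈ S, clB m B q = i.2 ∧
          Q (i.1 ∪ S)).card : ℝ) := by
    intro i
    by_cases hi : i ∈ IB m B g
    · obtain ⟨X₀, h0⟩ := h i.1 (mem_IB.1 hi).1 i.2 (ε / n) (by positivity)
      refine ⟨X₀, fun _ X hX => ?_⟩
      refine le_trans (le_of_eq ?_) ((h0 X hX).trans (le_of_eq ?_))
      · congr 4
      · congr 2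
    · exact ⟨0, fun h1 => absurd h1 hi⟩
  choose X₀ hX₀ using h'
  refine ⟨∑ i ∈ IB m B g, X₀ i * nm i.1, fun X hX => ?_⟩
  have hkey : ∀ i ∈ IB m B g,
      κ₀ * (((Sx Pg (X / nm i.1)).filter fun S => Disjoint S B ∧
        ∑ q ∈ S, clB m B q = i.2).card : ℝ) - ε / n * X ≤
      (((Sx Pg (X / nm i.1)).filter fun S => Disjoint S B ∧ ∑ q ∈ S, clB m B q = i.2 ∧
        Q (i.1 ∪ S)).card : ℝ) := by
    intro i hi
    have hpos : 0 < nm i.1 := one_le_nm i.1
    have h1 : X₀ i ≤ X / nm i.1 := by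
      rw [Nat.le_div_iff_mul_le hpos]
      exact (single_le_sum (f := fun i => X₀ i * nm i.1) (fun _ _ => Nat.zero_le _) hi).trans hX
    have h2 := hX₀ i hi _ h1
    have h3 : ((X / nm i.1 : ℕ) : ℝ) ≤ X := by exact_mod_cast Nat.div_le_self _ _
    have h4 : ε / n * ((X / nm i.1 : ℕ) : ℝ) ≤ ε / n * X :=
      mul_le_mul_of_nonneg_left h3 (by positivity)
    linarith
  have hs := sum_le_sum hkey
  rw [sum_sub_distrib, ← mul_sum, sum_const, nsmul_eq_mul] at hs
  have e1 := cnt_eq m B g (fun _ => True) X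
  have e2 := cnt_eq m B g Q X
  simp only [and_true] at e1
  have e1' : (((Sx Pg X).filter fun S => ∑ q ∈ S, clq m q = g).card : ℝ) =
      ∑ i ∈ IB m B g, (((Sx Pg (X / nm i.1)).filter fun S => Disjoint S B ∧
        ∑ q ∈ S, clB m B q = i.2).card : ℝ) := by exact_mod_cast e1
  have e2' : (((Sx Pg X).filter fun S => ∑ q ∈ S, clq m q = g ∧ Q S).card : ℝ) =
      ∑ i ∈ IB m B g, (((Sx Pg (X / nm i.1)).filter fun S => Disjoint S B ∧
        ∑ q ∈ S, clB m B q = i.2 ∧ Q (i.1 ∪ S)).card : ℝ) := by exact_mod_cast e2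
  rw [← e1', ← e2'] at hs
  have hfin : ((IB m B g).card : ℝ) * (ε / n * X) ≤ ε * X := by
    have h5 : ((IB m B g).card : ℝ) ≤ n := by
      rw [hn]
      linarith
    have h6 : ((IB m B g).card : ℝ) * (ε / n * X) ≤ n * (ε / n * X) :=
      mul_le_mul_of_nonneg_right h5 (by positivity)
    have h7 : n * (ε / n * X) = ε * X := by field_simp
    linarith
  have hgoal : κ₀ * (((Sx Pg X).filter fun S => ∑ q ∈ S, clq m q = g).card : ℝ) - ε * X ≤
      (((Sx Pg X).filter fun S => ∑ q ∈ S, clq m q = g ∧ Q S).card : ℝ) := by linarith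
  refine le_trans (le_of_eq ?_) (hgoal.trans (le_of_eq ?_))
  · congr 4
  · congr 2

end

end Pool.Agent.Lib.MP_1a91b9_ntM
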